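import Mathlib
import Pool.Agent.TH161.LW.Info3
import Pool.Agent.TH161.LW.Cells

/-!
# A perceptron form of Komlós' pigeonhole principle

`c x`, `x ∈ S`, are random variables with values in `{0, …, 2 ^ J - 1}` on a finite probability
space.  If `|P (c x < c y) - P (c y < c x)| ≥ δ` for all `x ≠ y` in `S`, then
`δ² log |S| ≤ 3 J²`.

The comparison matrix is `B (v x) (v y)` with vectors of norm `√J` and an alternating form `B` with
`|B v w| ≤ ‖v‖ ‖w‖`.  In a tournament with `4 ^ d` vertices one can choose one after the other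
pivots `z₁, …, z_d` and signs `s₁, …, s_d`, the sign being free at each step, such that some vertex
`z` has `s_i B (z, z_i) ≥ δ` for all `i`.  The signs are chosen such that the norm of `∑ s_i v_{z_i}`
is at most `√(d J)`.
-/

set_option autoImplicit false

open Finset
open scoped Classical

namespace Pool.Agent.H33.KSP

open Pool.Agent.TH161.LW

variable {β : Type*}

/-- few vertices of a tournament have small out-degree -/
lemma few_small (R : β → β → Prop) (L : Finset β) (k : ℕ) (hk1 : 1 ≤ k)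
    (htot : ∀ x ∈ L, ∀ y ∈ L, x ≠ y → R x y ∨ R y x)
    (hk : ∀ x ∈ L, ((L.filter fun y => y ≠ x ∧ R x y).card) < k) : L.card < 2 * k := by
  rcases L.eq_empty_or_nonempty with h | hne
  · subst h
    rw [Finset.card_empty]
    omega
  have h1 : ∑ x ∈ L, (L.filter fun y => y ≠ x ∧ R x y).card =
      ∑ x ∈ L, (L.filter fun y => y ≠ x ∧ R y x).card := by
    have h2 := Finset.sum_card_bipartiteAbove_eq_sum_card_bipartiteBelow
      (s := L) (t := L) (r := fun x y => y ≠ x ∧ R x y)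
    unfold bipartiteAbove bipartiteBelow at h2
    rw [h2]
    refine Finset.sum_congr rfl fun x _ => ?_
    congr 1
    refine Finset.filter_congr fun y _ => ?_
    rw [ne_comm]
  have h2 : ∀ x ∈ L, L.card - 1 ≤ (L.filter fun y => y ≠ x ∧ R x y).card +
      (L.filter fun y => y ≠ x ∧ R y x).card := by
    intro x hx
    rw [← Finset.card_erase_of_mem hx]
    refine le_trans (Finset.card_le_card ?_) (Finset.card_union_le _ _)
    intro y hy
    obtain ⟨hyx, hyL⟩ := Finset.mem_erase.mp hy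
    rw [Finset.mem_union, Finset.mem_filter, Finset.mem_filter]
    rcases htot x hx y hyL hyx.symm with h | h
    · exact Or.inl ⟨hyL, hyx, h⟩
    · exact Or.inr ⟨hyL, hyx, h⟩
  have h3 : L.card * (L.card - 1) ≤ 2 * ∑ x ∈ L, (L.filter fun y => y ≠ x ∧ R x y).card := by
    have h4 := Finset.sum_le_sum h2
    rw [Finset.sum_const, smul_eq_mul, Finset.sum_add_distrib, ← h1] at h4
    linarith
  have h4 : ∑ x ∈ L, (L.filter fun y => y ≠ x ∧ R x y).card ≤ L.card * (k - 1) := by
    refine (Finset.sum_le_card_nsmul _ _ (k - 1) fun x hx => ?_).trans (by rw [smul_eq_mul])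
    have := hk x hx
    omega
  have h5 : L.card * (L.card - 1) ≤ L.card * (2 * (k - 1)) := by
    calc L.card * (L.card - 1) ≤ 2 * (L.card * (k - 1)) := by omega
      _ = L.card * (2 * (k - 1)) := by ring
  have hL : 0 < L.card := hne.card_pos
  have h6 := Nat.le_of_mul_le_mul_left h5 hL
  obtain ⟨x, hx⟩ := hne
  have := hk x hx
  omega

/-- a vertex with many in- and out-neighbours -/
lemma pivot (R : β → β → Prop) (S : Finset β) (k : ℕ) (hk1 : 1 ≤ k) (hS : 4 * k ≤ S.card)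
    (htot : ∀ x ∈ S, ∀ y ∈ S, x ≠ y → R x y ∨ R y x) :
    ∃ z ∈ S, k ≤ (S.filter fun y => y ≠ z ∧ R z y).card ∧
      k ≤ (S.filter fun y => y ≠ z ∧ R y z).card := by
  by_contra hcon
  push Not at hcon
  have h1 := few_small R (S.filter fun x => (S.filter fun y => y ≠ x ∧ R x y).card < k) k hk1
    (fun x hx y hy hxy => htot x (Finset.mem_filter.mp hx).1 y (Finset.mem_filter.mp hy).1 hxy)
    (fun x hx => lt_of_le_of_lt (Finset.card_le_card
      (Finset.filter_subset_filter _ (Finset.filter_subset _ _))) (Finset.mem_filter.mp hx).2)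
  have h2 := few_small (fun x y => R y x)
    (S.filter fun x => (S.filter fun y => y ≠ x ∧ R y x).card < k) k hk1
    (fun x hx y hy hxy =>
      (htot x (Finset.mem_filter.mp hx).1 y (Finset.mem_filter.mp hy).1 hxy).symm)
    (fun x hx => lt_of_le_of_lt (Finset.card_le_card
      (Finset.filter_subset_filter _ (Finset.filter_subset _ _))) (Finset.mem_filter.mp hx).2)
  have h3 : S ⊆ (S.filter fun x => (S.filter fun y => y ≠ x ∧ R x y).card < k) ∪
      (S.filter fun x => (S.filter fun y => y ≠ x ∧ R y x).card < k) := by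
    intro x hx
    rw [Finset.mem_union, Finset.mem_filter, Finset.mem_filter]
    by_cases h : (S.filter fun y => y ≠ x ∧ R x y).card < k
    · exact Or.inl ⟨hx, h⟩
    · exact Or.inr ⟨hx, hcon x hx (not_lt.mp h)⟩
  have h4 := (Finset.card_le_card h3).trans (Finset.card_union_le _ _)
  omega

section

variable {V : Type*} [NormedAddCommGroup V] [InnerProductSpace ℝ V]

/-- the perceptron argument -/
theorem perc_aux (B : V →ₗ[ℝ] V →ₗ[ℝ] ℝ) (hB0 : ∀ v, B v v = 0) (v : β → V) (G δ : ℝ)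
    (d : ℕ) : ∀ (S : Finset β), 4 ^ d ≤ S.card → (∀ x ∈ S, ‖v x‖ ^ 2 ≤ G) →
      (∀ x ∈ S, ∀ y ∈ S, x ≠ y → δ ≤ |B (v x) (v y)|) → ∀ w : V,
      ∃ z ∈ S, ∃ w' : V, ‖w'‖ ^ 2 ≤ ‖w‖ ^ 2 + d * G ∧ B (v z) w + d * δ ≤ B (v z) w' := by
  have hanti : ∀ a b : V, B a b = - B b a := by
    intro a b
    have h := hB0 (a + b)
    simp only [map_add, LinearMap.add_apply, hB0] at h
    linarith
  induction d with
  | zero =>
    intro S hS hG _ w
    have hne : S.Nonempty := Finset.card_pos.mp (by rw [pow_zero] at hS; omega)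
    obtain ⟨z, hz⟩ := hne
    exact ⟨z, hz, w, by simp, by simp⟩
  | succ d ih =>
    intro S hS hG hδ w
    obtain ⟨z₀, hz₀, h1, h2⟩ := pivot (fun x y => δ ≤ B (v x) (v y)) S (4 ^ d)
      (Nat.one_le_pow _ _ (by norm_num)) (by rw [pow_succ] at hS; omega) (by
        intro x hx y hy hxy
        have h := hδ x hx y hy hxy
        rcases le_abs'.mp h with h | h
        · right
          rw [hanti]
          linarith
        · exact Or.inl h)
    have hGz := hG z₀ hz₀
    rcases le_total (inner ℝ w (v z₀)) 0 with hs | hs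
    · -- add `v z₀`
      obtain ⟨z, hz, w', hw1, hw2⟩ := ih (S.filter fun y => y ≠ z₀ ∧ δ ≤ B (v y) (v z₀)) h2
        (fun x hx => hG x (Finset.mem_filter.mp hx).1)
        (fun x hx y hy => hδ x (Finset.mem_filter.mp hx).1 y (Finset.mem_filter.mp hy).1)
        (w + v z₀)
      obtain ⟨hzS, _, hzδ⟩ := Finset.mem_filter.mp hz
      refine ⟨z, hzS, w', ?_, ?_⟩
      · have h3 := norm_add_sq_real w (v z₀)
        push_cast
        linarith
      · rw [map_add] at hw2
        push_cast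
        linarith
    · -- subtract `v z₀`
      obtain ⟨z, hz, w', hw1, hw2⟩ := ih (S.filter fun y => y ≠ z₀ ∧ δ ≤ B (v z₀) (v y)) h1
        (fun x hx => hG x (Finset.mem_filter.mp hx).1)
        (fun x hx y hy => hδ x (Finset.mem_filter.mp hx).1 y (Finset.mem_filter.mp hy).1)
        (w - v z₀)
      obtain ⟨hzS, _, hzδ⟩ := Finset.mem_filter.mp hz
      refine ⟨z, hzS, w', ?_, ?_⟩
      · have h3 := norm_sub_sq_real w (v z₀)
        push_cast
        linarith
      · rw [map_sub, hanti (v z) (v z₀)] at hw2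
        push_cast
        linarith

/-- a tournament with `4 ^ d` vertices and margin `δ` -/
theorem perc (B : V →ₗ[ℝ] V →ₗ[ℝ] ℝ) (hB : ∀ v w, |B v w| ≤ ‖v‖ * ‖w‖) (hB0 : ∀ v, B v v = 0)
    (v : β → V) (G δ : ℝ) (hδ0 : 0 ≤ δ) (d : ℕ) (S : Finset β) (hS : 4 ^ d ≤ S.card)
    (hG : ∀ x ∈ S, ‖v x‖ ^ 2 ≤ G)
    (hδ : ∀ x ∈ S, ∀ y ∈ S, x ≠ y → δ ≤ |B (v x) (v y)|) : d * δ ^ 2 ≤ G ^ 2 := by
  obtain ⟨z, hz, w, hw1, hw2⟩ := perc_aux B hB0 v G δ d S hS hG hδ 0
  rw [map_zero, zero_add] at hw2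
  rw [norm_zero] at hw1
  have h1 := (hw2.trans (le_abs_self _)).trans (hB (v z) w)
  have h2 : (d * δ) ^ 2 ≤ (‖v z‖ * ‖w‖) ^ 2 := pow_le_pow_left₀ (by positivity) h1 2
  have hG0 : 0 ≤ G := (sq_nonneg _).trans (hG z hz)
  have h3 : (‖v z‖ * ‖w‖) ^ 2 ≤ G * (d * G) := by
    rw [mul_pow]
    refine mul_le_mul (hG z hz) (by linarith) (sq_nonneg _) hG0
  rcases Nat.eq_zero_or_pos d with hd | hd
  · subst hd
    simp only [Nat.cast_zero, zero_mul]
    positivity
  · have hd0 : (0 : ℝ) < d := by exact_mod_cast hd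
    have h4 : (d : ℝ) * (d * δ ^ 2) ≤ d * G ^ 2 := by
      calc (d : ℝ) * (d * δ ^ 2) = (d * δ) ^ 2 := by ring
        _ ≤ G * (d * G) := h2.trans h3
        _ = d * G ^ 2 := by ring
    exact le_of_mul_le_mul_left h4 hd0

end

variable {Ω : Type*} [Fintype Ω]

/-- the perceptron form of Komlós' pigeonhole principle -/
theorem percep [Nonempty Ω] {J : ℕ} (hJ : 1 ≤ J) {c : β → Ω → ℕ} {δ : ℝ} (hδ : 0 < δ)
    {S : Finset β} (hS : S.Nonempty) (hc : ∀ x ∈ S, ∀ ω, c x ω < 2 ^ J)
    (hB : ∀ x ∈ S, ∀ y ∈ S, x ≠ y → δ * Fintype.card Ω ≤ |BT c x y|) :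
    δ ^ 2 * Real.log S.card ≤ 3 * (J : ℝ) ^ 2 := by
  have hΩ : (0 : ℝ) < Fintype.card Ω := by exact_mod_cast Fintype.card_pos
  have hJ1 : (1 : ℝ) ≤ J := by exact_mod_cast hJ
  have hJ2 : (1 : ℝ) ≤ (J : ℝ) ^ 2 := one_le_pow₀ hJ1
  rcases Nat.lt_or_ge S.card 2 with h2 | h2
  · have h3 : S.card = 1 := by
      have := hS.card_pos
      omega
    rw [h3]
    simp only [Nat.cast_one, Real.log_one, mul_zero]
    positivity
  -- `δ ≤ 1`
  have hδ1 : δ ≤ 1 := by
    obtain ⟨x, hx, y, hy, hxy⟩ := Finset.one_lt_card.mp (show 1 < S.card by omega)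
    have h3 := hB x hx y hy hxy
    have h4 : |BT c x y| ≤ 1 * Fintype.card Ω := by
      unfold BT
      refine (Finset.abs_sum_le_sum_abs _ _).trans ?_
      refine (Finset.sum_le_card_nsmul _ _ 1 fun ω _ => ?_).trans (by simp)
      unfold sgn
      split_ifs <;> simp
    exact le_of_mul_le_mul_right (h3.trans h4) hΩ
  obtain ⟨d, hd⟩ : ∃ d : ℕ, d = Nat.log 4 S.card := ⟨_, rfl⟩
  have hd1 : 4 ^ d ≤ S.card := by
    rw [hd]
    exact Nat.pow_log_le_self 4 (by omega)
  have hd2 : S.card < 4 ^ (d + 1) := by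
    rw [hd]
    exact Nat.lt_pow_succ_log_self (by norm_num) _
  have hR : Real.sqrt J ^ 2 = J := Real.sq_sqrt (by linarith)
  have h3 := perc (BB Ω J) (BB_le J) (BB_self J) (fun x => vec J (c x)) J δ hδ.le d S hd1
    (fun x hx => (norm_vec J (c x) (hc x hx)).le) (by
      intro x hx y hy hxy
      rw [BB_vec J _ _ (hc x hx) (hc y hy), abs_div, abs_of_pos hΩ, le_div_iff₀ hΩ]
      exact hB x hx y hy hxy)
  have h4 : Real.log S.card ≤ (d + 1) * Real.log 4 := by
    have h5 : (S.card : ℝ) ≤ (4 : ℝ) ^ (d + 1) := by exact_mod_cast hd2.le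
    have h6 := Real.log_le_log (by exact_mod_cast (show 0 < S.card by omega)) h5
    rw [Real.log_pow] at h6
    exact_mod_cast h6
  have h5 : Real.log 4 ≤ 1.4 := by
    have h6 : (4 : ℝ) = 2 ^ 2 := by norm_num
    rw [h6, Real.log_pow]
    have := Real.log_two_lt_d9
    norm_num
    linarith
  have h6 : 0 ≤ Real.log 4 := Real.log_nonneg (by norm_num)
  have h7 : δ ^ 2 ≤ 1 := pow_le_one₀ hδ.le hδ1
  have hd0 : (0 : ℝ) ≤ d := Nat.cast_nonneg _
  calc δ ^ 2 * Real.log S.card ≤ δ ^ 2 * ((d + 1) * Real.log 4) :=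
        mul_le_mul_of_nonneg_left h4 (by positivity)
    _ = (d * δ ^ 2 + δ ^ 2) * Real.log 4 := by ring
    _ ≤ ((J : ℝ) ^ 2 + (J : ℝ) ^ 2) * 1.4 := by
        refine mul_le_mul (by linarith) h5 h6 (by positivity)
    _ ≤ 3 * (J : ℝ) ^ 2 := by linarith

end Pool.Agent.H33.KSP
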