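import Pool.Agent.H293R3.BC.Count
import Pool.Agent.H581.KS.Iter
import Pool.Agent.H581.KS.Conv
import Pool.Agent.Y352.KSR.Final
import Pool.Agent.H33.KSP.Main2

/-!
# The better rate for the minimal balance constants of posets of width `w`
-/

set_option autoImplicit false

open Filter Topology

namespace Pool.Agent.H33.KSP

open Pool.Agent.H293R3.BC Pool.Agent.TH161.LW
open Pool.Agent.Y352.KSR (CC po eN_card eP_card eP_zero IsDelta delta_nonneg delta_le)

/-- the rate for relations on `Fin n` -/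
theorem big2 : ∃ B : ℝ, 1 ≤ B ∧ ∀ ε : ℝ, 0 < ε → ε < 1 / 2 → ∀ (n : ℕ)
    (r : Fin n → Fin n → Prop), IsPo r → (∃ s : Finset (Fin n),
      Real.exp (B * Real.log (2 / ε) ^ 2 / ε ^ 2) ≤ s.card ∧
      ∀ a ∈ s, ∀ b ∈ s, a ≠ b → ¬ r a b) →
    ∃ x y : Fin n, ¬ r x y ∧ ¬ r y x ∧ 1 / 2 - ε ≤ min
      ((Nat.card {σ : Equiv.Perm (Fin n) //
          (∀ a b, r a b → σ a ≤ σ b) ∧ σ x < σ y} : ℝ) /
        (Nat.card {σ : Equiv.Perm (Fin n) // ∀ a b, r a b → σ a ≤ σ b} : ℝ))
      ((Nat.card {σ : Equiv.Perm (Fin n) //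
          (∀ a b, r a b → σ a ≤ σ b) ∧ σ y < σ x} : ℝ) /
        (Nat.card {σ : Equiv.Perm (Fin n) // ∀ a b, r a b → σ a ≤ σ b} : ℝ)) := by
  obtain ⟨B, hB, hW⟩ := kahn_saks_rate2
  refine ⟨B, hB, fun ε hε hε2 n r hr ⟨s, hsW, hs⟩ => ?_⟩
  let _ : PartialOrder (CC n) := po r hr
  have hcard : Fintype.card (CC n) = n := Fintype.card_fin n
  obtain ⟨x, y, -, h1, h2⟩ := hW ε hε hε2.le (CC n) (s : Finset (CC n))
    (fun a ha b hb hab => hs a ha b hb hab) hsW
  have he : (0 : ℝ) < eN (CC n) := by exact_mod_cast Pool.Agent.TH161.KS.eN_pos (CC n)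
  have hpos : (0 : ℝ) < (1 / 2 - ε) * eN (CC n) := mul_pos (by linarith) he
  refine ⟨x, y, ?_, ?_, ?_⟩
  · intro h
    have h3 : eP (CC n) y x = 0 := eP_zero (x := x) (y := y) h
    rw [h3, Nat.cast_zero] at h2
    linarith
  · intro h
    have h3 : eP (CC n) x y = 0 := eP_zero (x := y) (y := x) h
    rw [h3, Nat.cast_zero] at h1
    linarith
  · have e1 := eN_card hcard
    have e2 := eP_card hcard x y
    have e3 := eP_card hcard y x
    have e1' : eN (CC n) = Nat.card {σ : Equiv.Perm (Fin n) // ∀ a b, r a b → σ a ≤ σ b} := e1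
    have e2' : eP (CC n) x y = Nat.card {σ : Equiv.Perm (Fin n) //
      (∀ a b, r a b → σ a ≤ σ b) ∧ σ x < σ y} := e2
    have e3' : eP (CC n) y x = Nat.card {σ : Equiv.Perm (Fin n) //
      (∀ a b, r a b → σ a ≤ σ b) ∧ σ y < σ x} := e3
    rw [← e1', ← e2', ← e3']
    refine le_min ?_ ?_
    · rw [le_div_iff₀ he]; exact h1
    · rw [le_div_iff₀ he]; exact h2

/-- the rate -/
theorem rate2 : ∃ B : ℝ, 1 ≤ B ∧ ∀ δ : ℕ → ℝ, IsDelta δ → ∀ (ε : ℝ) (w : ℕ), 0 < ε → ε ≤ 1 / 2 →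
    Real.exp (B * Real.log (2 / ε) ^ 2 / ε ^ 2) ≤ w → 1 / 2 - ε ≤ δ w := by
  obtain ⟨B, hB, hW⟩ := big2
  refine ⟨B, hB, fun δ hδ ε w hε hε2 hw => ?_⟩
  rcases hε2.lt_or_eq with hε3 | rfl
  · have hw1 : 1 ≤ w := by
      have h1 : (0 : ℝ) < w := lt_of_lt_of_le (Real.exp_pos _) hw
      exact_mod_cast h1
    obtain ⟨n₀, r₀, -, -, h₀⟩ := exists_poset w hw1
    rw [hδ w]
    refine le_csInf ⟨_, n₀, r₀, h₀.po.1, h₀.po.2.1, h₀.po.2.2, h₀.wid, h₀.wid_le, rfl⟩ ?_
    rintro d ⟨n, r, h1, h2, h3, ⟨s, hs1, hs2⟩, -, rfl⟩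
    obtain ⟨x, y, hx, hy, hxy⟩ := hW ε hε hε3 n r ⟨h1, h2, h3⟩ ⟨s, by rw [hs1]; exact hw, hs2⟩
    refine hxy.trans (le_csSup ?_ ⟨x, y, hx, hy, rfl⟩)
    refine ⟨1, ?_⟩
    rintro t ⟨u, v, -, -, rfl⟩
    refine (min_le_left _ _).trans (div_le_one_of_le₀ ?_ (by positivity))
    have h5 : Nat.card {σ : Equiv.Perm (Fin n) // (∀ a b, r a b → σ a ≤ σ b) ∧ σ u < σ v} ≤
        Nat.card {σ : Equiv.Perm (Fin n) // ∀ a b, r a b → σ a ≤ σ b} :=
      Nat.card_le_card_of_injective (fun σ => ⟨σ.1, σ.2.1⟩) (fun a b h => by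
        rw [Subtype.mk.injEq] at h
        exact Subtype.ext h)
    exact_mod_cast h5
  · rw [sub_self]
    exact delta_nonneg hδ w

/-- the upper bound for the minimal balance constants -/
lemma delta_le2 {δ : ℕ → ℝ} (hδ : IsDelta δ) (w : ℕ) (hw : 1 ≤ w) :
    δ w ≤ 1 / 2 - (1 + Real.log w) / (40000 * (w : ℝ)) := by
  classical
  have hw1 : (1 : ℝ) ≤ w := by exact_mod_cast hw
  have hw0 : (0 : ℝ) < w := by linarith
  have hll : Real.log w ≤ w := (Real.log_le_sub_one_of_pos hw0).trans (by linarith)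
  have hl0 : 0 ≤ Real.log w := Real.log_nonneg hw1
  have hb : (0 : ℝ) ≤ 1 / 2 - (1 + Real.log w) / (40000 * (w : ℝ)) := by
    have : (1 + Real.log w) / (40000 * (w : ℝ)) ≤ 1 / 2 := by
      rw [div_le_iff₀ (by positivity)]
      linarith
    linarith
  rcases le_or_gt 14641 w with hbig | hsmall
  · obtain ⟨n, S, hex⟩ := Pool.Agent.H581.KS.exists_ex w hbig
    obtain ⟨r, h1, h2, h3, h4, h5, h6⟩ := Pool.Agent.H581.KS.exists_rel hex
    rw [hδ w]
    refine csInf_le_of_le ⟨0, ?_⟩ ⟨n, r, h1, h2, h3, h4, h5, rfl⟩ ?_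
    · rintro d ⟨m, q, -, -, -, -, -, rfl⟩
      apply Real.sSup_nonneg
      rintro t ⟨x, y, -, -, rfl⟩
      exact le_min (by positivity) (by positivity)
    · apply Real.sSup_le _ hb
      rintro t ⟨x, y, hxy, hyx, rfl⟩
      refine (h6 x y hxy hyx).trans ?_
      have hl1 : 1 ≤ Real.log w := by
        rw [Real.le_log_iff_exp_le hw0]
        have := Real.exp_one_lt_d9
        have h7 : (14641 : ℝ) ≤ w := by exact_mod_cast hbig
        linarith
      have h8 : (1 + Real.log w) / (40000 * (w : ℝ)) ≤ Real.log w / (20000 * (w : ℝ)) := by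
        rw [div_le_div_iff₀ (by positivity) (by positivity)]
        nlinarith
      linarith
  · refine (delta_le hδ w hw).trans ?_
    have h11 : Real.log w ≤ 40 := by
      have h1 : Real.log w ≤ Real.log ((11 : ℝ) ^ 4) := by
        apply Real.log_le_log hw0
        have : (w : ℝ) ≤ 14641 := by exact_mod_cast hsmall.le
        linarith
      rw [Real.log_pow] at h1
      have h2 : Real.log (11 : ℝ) ≤ 10 := by
        have := Real.log_le_sub_one_of_pos (show (0 : ℝ) < 11 by norm_num)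
        linarith
      push_cast at h1
      linarith
    have : (1 + Real.log w) / (40000 * (w : ℝ)) ≤ 1 / (12 * (w : ℝ) - 8) := by
      rw [div_le_div_iff₀ (by positivity) (by linarith)]
      have h3 : (1 + Real.log w) * (12 * (w : ℝ) - 8) ≤ 41 * (12 * (w : ℝ) - 8) :=
        mul_le_mul_of_nonneg_right (by linarith) (by linarith)
      linarith
    linarith

/-- the theorem -/
theorem main2 : ∃ C : ℝ, 0 < C ∧ ∀ δ : ℕ → ℝ, IsDelta δ →
    (∀ (ε : ℝ) (w : ℕ), 0 < ε → ε ≤ 1 / 2 →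
      Real.exp (C * Real.log (2 / ε) ^ 2 / ε ^ 2) ≤ w → 1 / 2 - ε ≤ δ w) ∧
    (∀ w : ℕ, 16 ≤ w → 1 / 2 - C * Real.log (Real.log w) / √(Real.log w) ≤ δ w) ∧
    (∀ w v : ℕ, 1 ≤ w → Real.exp (C * w ^ 2) ≤ v → δ w < δ v) ∧
    (∀ w : ℕ, 1 ≤ w → ∃ u : ℕ, w ≤ u ∧ (u : ℝ) ≤ Real.exp (C * w ^ 2) ∧ δ u < δ (u + 1)) := by
  obtain ⟨B, hB, hR⟩ := rate2
  have hB0 : 0 < B := by linarith
  refine ⟨10 ^ 12 * B, by positivity, fun δ hδ => ?_⟩
  have hBB : B ≤ 10 ^ 12 * B := by linarith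
  have r1 : ∀ (ε : ℝ) (w : ℕ), 0 < ε → ε ≤ 1 / 2 →
      Real.exp (10 ^ 12 * B * Real.log (2 / ε) ^ 2 / ε ^ 2) ≤ w → 1 / 2 - ε ≤ δ w := by
    intro ε w hε hε2 hw
    refine hR δ hδ ε w hε hε2 ((Real.exp_le_exp.mpr ?_).trans hw)
    have h1 := log_two_div_ge hε hε2
    gcongr
  have r3 : ∀ w v : ℕ, 1 ≤ w → Real.exp (10 ^ 12 * B * w ^ 2) ≤ v → δ w < δ v := by
    intro w v hw hv
    have hw1 : (1 : ℝ) ≤ w := by exact_mod_cast hw
    have hw0 : (0 : ℝ) < w := by linarith
    have h1 := delta_le2 hδ w hw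
    obtain ⟨lam, hlam⟩ : ∃ lam : ℝ, lam = 1 + Real.log w := ⟨_, rfl⟩
    rw [← hlam] at h1
    have hl1 : 1 ≤ lam := by
      have := Real.log_nonneg hw1
      linarith
    have hl0 : 0 < lam := by linarith
    have hlw : lam ≤ w := by
      have := Real.log_le_sub_one_of_pos hw0
      linarith
    have h2 : 1 / 2 - lam / (80000 * w) ≤ δ v := by
      refine hR δ hδ _ v (by positivity) ?_ ((Real.exp_le_exp.mpr ?_).trans hv)
      · rw [div_le_div_iff₀ (by positivity) (by norm_num)]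
        nlinarith
      · have h3 : (2 : ℝ) / (lam / (80000 * w)) = 160000 * w / lam := by field_simp; norm_num
        have h4 : Real.log (160000 * w / lam) ≤ 12 * lam := by
          have h5 : Real.log (160000 * w / lam) ≤ Real.log (160000 * w) := by
            refine Real.log_le_log (by positivity) ?_
            rw [div_le_iff₀ hl0]
            nlinarith
          rw [Real.log_mul (by norm_num) hw0.ne'] at h5
          have h6 : Real.log 160000 ≤ 12 := by
            have h7 : (160000 : ℝ) = 20 ^ 4 := by norm_num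
            rw [h7, Real.log_pow]
            have h8 : Real.log 20 ≤ 3 := by
              rw [Real.log_le_iff_le_exp (by norm_num)]
              have h9 : Real.exp 3 = Real.exp 1 ^ 3 := by
                rw [← Real.exp_nat_mul]; norm_num
              rw [h9]
              have h10 := Real.exp_one_gt_d9
              calc (20 : ℝ) ≤ 2.718 ^ 3 := by norm_num
                _ ≤ Real.exp 1 ^ 3 := pow_le_pow_left₀ (by norm_num) (by linarith) 3
            norm_num
            linarith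
          linarith
        have h5 : 0 ≤ Real.log (160000 * w / lam) := by
          refine Real.log_nonneg ?_
          rw [le_div_iff₀ hl0]
          linarith
        rw [h3]
        calc B * Real.log (160000 * w / lam) ^ 2 / (lam / (80000 * w)) ^ 2
            ≤ B * (12 * lam) ^ 2 / (lam / (80000 * w)) ^ 2 := by gcongr
          _ = 144 * 80000 ^ 2 * B * w ^ 2 := by
              field_simp
              norm_num
          _ ≤ 10 ^ 12 * B * w ^ 2 := by
              have : 0 ≤ B * (w : ℝ) ^ 2 := by positivity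
              nlinarith
    have h3 : lam / (80000 * (w : ℝ)) < lam / (40000 * w) := by
      rw [div_lt_div_iff₀ (by positivity) (by positivity)]
      have : 0 < lam * w := by positivity
      nlinarith
    linarith
  refine ⟨r1, ?_, r3, ?_⟩
  · intro w hw
    obtain ⟨ℒ, hℒ⟩ : ∃ ℒ : ℝ, ℒ = Real.log w := ⟨_, rfl⟩
    have hw16 : (16 : ℝ) ≤ w := by exact_mod_cast hw
    have hw0 : (0 : ℝ) < w := by linarith
    have hℒ1 : 2.7 ≤ ℒ - 0.05 := by
      have h1 : Real.log 16 ≤ Real.log w := Real.log_le_log (by norm_num) hw16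
      have h2 : Real.log 16 = 4 * Real.log 2 := by
        have : (16 : ℝ) = 2 ^ 4 := by norm_num
        rw [this, Real.log_pow]
        norm_num
      have := Real.log_two_gt_d9
      rw [hℒ]
      linarith
    have hℒ0 : 0 < ℒ := by linarith
    rw [← hℒ]
    obtain ⟨lam, hlam⟩ : ∃ lam : ℝ, lam = Real.log ℒ := ⟨_, rfl⟩
    have hlam1 : 1 ≤ lam := by
      rw [hlam, Real.le_log_iff_exp_le hℒ0]
      have := Real.exp_one_lt_d9
      linarith
    have hlam0 : 0 < lam := by linarith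
    rw [← hlam]
    obtain ⟨D, hD⟩ : ∃ D : ℝ, D = 10 ^ 12 * B := ⟨_, rfl⟩
    rw [← hD]
    have hD2 : 2 ≤ D := by linarith
    have hD0 : 0 < D := by linarith
    have hDB : B ≤ D ^ 2 := by
      have h1 : D ≤ D ^ 2 := le_self_pow₀ (by linarith) (by norm_num)
      linarith
    obtain ⟨ε, hε⟩ : ∃ ε : ℝ, ε = D * lam / √ℒ := ⟨_, rfl⟩
    rw [← hε]
    have hp2 : 0 < √ℒ := Real.sqrt_pos.mpr hℒ0
    have hs2 : √ℒ ^ 2 = ℒ := Real.sq_sqrt hℒ0.le
    have hε0 : 0 < ε := by rw [hε]; positivity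
    rcases le_or_gt ε (1 / 2) with hε2 | hε2
    · refine hR δ hδ ε w hε0 hε2 ?_
      rw [← Real.le_log_iff_exp_le hw0, ← hℒ]
      have h1 : Real.log (2 / ε) ≤ lam := by
        rw [hlam]
        refine Real.log_le_log (by positivity) ?_
        rw [div_le_iff₀ hε0, hε, mul_div_assoc', le_div_iff₀ hp2]
        have h2 : √ℒ ≤ ℒ := by
          rw [Real.sqrt_le_left (by linarith)]
          nlinarith
        calc 2 * √ℒ ≤ 2 * ℒ := by linarith
          _ ≤ ℒ * (D * 1) := by nlinarith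
          _ ≤ ℒ * (D * lam) := by gcongr
      have h2 : 0 ≤ Real.log (2 / ε) := by
        have := log_two_div_ge hε0 hε2
        linarith
      have h3 : ε ^ 2 = D ^ 2 * lam ^ 2 / ℒ := by
        rw [hε, div_pow, mul_pow, hs2]
      rw [h3, div_le_iff₀ (by positivity)]
      calc B * Real.log (2 / ε) ^ 2 ≤ D ^ 2 * lam ^ 2 := by gcongr
        _ = ℒ * (D ^ 2 * lam ^ 2 / ℒ) := by field_simp
    · have := delta_nonneg hδ w
      linarith
  · intro w hw
    by_contra hcon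
    push Not at hcon
    obtain ⟨X, hX⟩ : ∃ X : ℝ, X = Real.exp (10 ^ 12 * B * w ^ 2) := ⟨_, rfl⟩
    rw [← hX] at hcon
    have hXw : (w : ℝ) ≤ X := by
      have hw1 : (1 : ℝ) ≤ w := by exact_mod_cast hw
      have h3 : (w : ℝ) ≤ 10 ^ 12 * B * w ^ 2 := by
        have h5 : (w : ℝ) ≤ w ^ 2 := le_self_pow₀ hw1 (by norm_num)
        calc (w : ℝ) = 1 * w := by ring
          _ ≤ (10 ^ 12 * B) * w ^ 2 := by
              refine mul_le_mul (by linarith) h5 (by linarith) (by positivity)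
      rw [hX]
      have h4 := Real.add_one_le_exp (10 ^ 12 * B * (w : ℝ) ^ 2)
      linarith
    -- `δ` does not increase up to `⌊X⌋ + 1`
    have h1 : ∀ k : ℕ, ((w + k : ℕ) : ℝ) ≤ X + 1 → δ (w + k) ≤ δ w := by
      intro k
      induction k with
      | zero => intro _; exact le_rfl
      | succ k ih =>
        intro hk
        have h2 : ((w + k : ℕ) : ℝ) ≤ X := by
          push_cast at hk ⊢
          linarith
        exact (hcon (w + k) (by omega) h2).trans (ih (by linarith))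
    obtain ⟨v, hv⟩ : ∃ v : ℕ, v = ⌈X⌉₊ := ⟨_, rfl⟩
    have hv1 : X ≤ v := by rw [hv]; exact Nat.le_ceil _
    have hX0 : 0 ≤ X := by rw [hX]; positivity
    have hv2 : (v : ℝ) ≤ X + 1 := by rw [hv]; exact (Nat.ceil_lt_add_one hX0).le
    have hwv : w ≤ v := by
      have : (w : ℝ) ≤ v := hXw.trans hv1
      exact_mod_cast this
    have h2 := r3 w v hw (by rw [← hX]; exact hv1)
    have h3 := h1 (v - w) (by rw [Nat.add_sub_cancel' hwv]; exact hv2)
    rw [Nat.add_sub_cancel' hwv] at h3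
    linarith

end Pool.Agent.H33.KSP
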